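import Pool.Agent.Lib.Cae772b.Localizing

open CategoryTheory Pool.Agent.Lib.Cae772b

namespace Pool.Agent.Results.MP_ae772b_al.KernelNotCompactlyGenerated

universe u

/-- Over every field `k` of characteristic `p > 0` there are a finite-dimensional Hopf algebra `H`
and a Drinfeld double `D` of `H` such that some `D`-module whose restriction to `H` is projective
does not lie in the localizing subcategory of the stable module category of `D` generated by the
finite-dimensional `D`-modules whose restriction to `H` is projective. -/
theorem result (p : ℕ) [Fact p.Prime] (k : Type u) [Field k] [CharP k p] :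
    ∃ (H : Type u) (_ : Ring H) (_ : HopfAlgebra k H) (D : Type u) (_ : Ring D) (_ : Algebra k D)
      (i : H →ₐ[k] D) (j : WithConv (H →ₗ[k] k) →ₐ[k] D),
      Module.Finite k H ∧ IsDrinfeldDouble i j ∧
      ∃ M : ModuleCat.{u} D, InKernel i M ∧
        ¬ Loc (fun N : ModuleCat.{u} D => InKernel i N ∧ Module.Finite D N) M :=
  ⟨Al p k, inferInstance, inferInstance, DD p k, inferInstance, inferInstance, iD p k, jD p k,
    inferInstance, isDrinfeldDouble p k, MM p k, inKernel_MM p k, not_loc p k⟩

end Pool.Agent.Results.MP_ae772b_al.KernelNotCompactlyGenerated
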